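import Mathlib

/-!
# Commuting graphs, left paths and knit degree of a semigroup
-/

namespace Q20.Knit

/-- `S` is an inverse semigroup: every `x` has a unique `y` with `x y x = x` and `y x y = y`. -/
def IsInverseSemigroup (S : Type*) [Semigroup S] : Prop :=
  ∀ x : S, ∃! y : S, x * y * x = x ∧ y * x * y = y

/-- The vertices of the commuting graph of `S`: the elements that do not commute with
every element of `S`. -/
abbrev NonCentral (S : Type*) [Semigroup S] : Type _ :=
  {x : S // ¬ ∀ y : S, x * y = y * x}

/-- The commuting graph of `S`: its vertices are the non-central elements, and two distinct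
vertices are adjacent exactly when they commute. -/
def commutingGraph (S : Type*) [Semigroup S] : SimpleGraph (NonCentral S) where
  Adj x y := x ≠ y ∧ x.1 * y.1 = y.1 * x.1
  symm := ⟨fun _ _ h => ⟨h.1.symm, h.2.symm⟩⟩
  loopless := ⟨fun _ h => h.1 rfl⟩

/-- A left path: a path `x = x₁ - ... - xₙ = y` (pairwise distinct vertices) in the commuting
graph with `x ≠ y` and `x * xᵢ = y * xᵢ` for all `i`. -/
def IsLeftPath {S : Type*} [Semigroup S] {x y : NonCentral S}
    (p : (commutingGraph S).Walk x y) : Prop :=
  p.IsPath ∧ x ≠ y ∧ ∀ z ∈ p.support, x.1 * z.1 = y.1 * z.1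

/-- The knit degree of `S` is defined and equal to `d`: `d` is the least length of a left path
in the commuting graph of `S`. -/
def HasKnitDegree (S : Type*) [Semigroup S] (d : ℕ) : Prop :=
  IsLeast {n : ℕ | ∃ (x y : NonCentral S) (p : (commutingGraph S).Walk x y),
    IsLeftPath p ∧ p.length = n} d

end Q20.Knit
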