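import Pool.Agent.Q20.Knit.Defs

namespace Q20.Knit

/-- the multiplication table of the example, in base `16` -/
def table : ℕ := 0x100220f2d1fdb1020f2d1fedcba860210f2d1fddbb102021fedcba8866021210fddbb10022021210022112a180a860212a180a98765432102a180a8866021210a987654433210102a886602211210102211001504254321015042544332101025443321100102021100220221121010202211211001020212110010022021210

/-- multiplication of the example -/
def mulT (i j : Fin 16) : Fin 16 :=
  ⟨(table >>> (4 * (16 * i.1 + j.1))) % 16, Nat.mod_lt _ (by decide)⟩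

lemma assocT : ∀ i j k : Fin 16, mulT (mulT i j) k = mulT i (mulT j k) := by
  decide +kernel

/-- the example: a monogenic inverse semigroup with `16` elements -/
structure Ex where
  /-- the index of the element -/
  val : Fin 16
deriving DecidableEq, Fintype

instance : Mul Ex := ⟨fun a b => ⟨mulT a.val b.val⟩⟩

instance : Semigroup Ex where
  mul_assoc a b c := by
    have := assocT a.val b.val c.val
    exact congrArg Ex.mk this

lemma mk_mul (a b : Fin 16) : (Ex.mk a) * (Ex.mk b) = ⟨mulT a b⟩ := rfl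

lemma mul_eq_mul_iff (a b c d : Ex) :
    a * b = c * d ↔ mulT a.val b.val = mulT c.val d.val :=
  ⟨fun h => congrArg Ex.val h, fun h => congrArg Ex.mk h⟩

lemma inverseT : ∀ i : Fin 16, ∃ j : Fin 16, (mulT (mulT i j) i = i ∧ mulT (mulT j i) j = j) ∧
    ∀ k : Fin 16, (mulT (mulT i k) i = i ∧ mulT (mulT k i) k = k) → k = j := by
  decide +kernel

lemma isInverse : IsInverseSemigroup Ex := by
  rintro ⟨i⟩
  obtain ⟨j, ⟨h1, h2⟩, h3⟩ := inverseT i
  refine ⟨⟨j⟩, ⟨congrArg Ex.mk h1, congrArg Ex.mk h2⟩, ?_⟩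
  rintro ⟨k⟩ ⟨h4, h5⟩
  exact congrArg Ex.mk (h3 k ⟨congrArg Ex.val h4, congrArg Ex.val h5⟩)

lemma noshort : ∀ i j : Fin 16, mulT i j = mulT j i → mulT i i = mulT j i →
    mulT i j = mulT j j → i = j ∨ (∀ k, mulT i k = mulT k i) ∨
      (∀ k, mulT j k = mulT k j) := by
  decide +kernel

lemma noncen (i : Fin 16) (h : ∃ k, mulT i k ≠ mulT k i) :
    ¬ ∀ y : Ex, (⟨i⟩ : Ex) * y = y * ⟨i⟩ := by
  obtain ⟨k, hk⟩ := h
  exact fun h' => hk (congrArg Ex.val (h' ⟨k⟩))

lemma h4 : ¬ ∀ y : Ex, (⟨4⟩ : Ex) * y = y * ⟨4⟩ := noncen 4 (by decide +kernel)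
lemma h3 : ¬ ∀ y : Ex, (⟨3⟩ : Ex) * y = y * ⟨3⟩ := noncen 3 (by decide +kernel)
lemma h7 : ¬ ∀ y : Ex, (⟨7⟩ : Ex) * y = y * ⟨7⟩ := noncen 7 (by decide +kernel)

lemma e43 : mulT 4 3 = mulT 3 4 := by decide +kernel
lemma e37 : mulT 3 7 = mulT 7 3 := by decide +kernel
lemma l44 : mulT 4 4 = mulT 7 4 := by decide +kernel
lemma l43 : mulT 4 3 = mulT 7 3 := by decide +kernel
lemma l47 : mulT 4 7 = mulT 7 7 := by decide +kernel

lemma ne_of_val {i j : Fin 16} (h : i ≠ j) (hi : ¬ ∀ y : Ex, (⟨i⟩ : Ex) * y = y * ⟨i⟩)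
    (hj : ¬ ∀ y : Ex, (⟨j⟩ : Ex) * y = y * ⟨j⟩) :
    (⟨⟨i⟩, hi⟩ : NonCentral Ex) ≠ ⟨⟨j⟩, hj⟩ := by
  intro h'
  exact h (congrArg (fun z : NonCentral Ex => z.1.val) h')

/-- the knit degree of the example is `2` -/
lemma knit : HasKnitDegree Ex 2 := by
  constructor
  · have a1 : (commutingGraph Ex).Adj ⟨⟨4⟩, h4⟩ ⟨⟨3⟩, h3⟩ :=
      ⟨ne_of_val (by decide) _ _, congrArg Ex.mk e43⟩
    have a2 : (commutingGraph Ex).Adj ⟨⟨3⟩, h3⟩ ⟨⟨7⟩, h7⟩ :=
      ⟨ne_of_val (by decide) _ _, congrArg Ex.mk e37⟩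
    have hne : (⟨⟨4⟩, h4⟩ : NonCentral Ex) ≠ ⟨⟨7⟩, h7⟩ := ne_of_val (by decide) _ _
    refine ⟨⟨⟨4⟩, h4⟩, ⟨⟨7⟩, h7⟩, .cons a1 (.cons a2 .nil), ⟨?_, hne, ?_⟩, rfl⟩
    · rw [SimpleGraph.Walk.cons_isPath_iff, SimpleGraph.Walk.cons_isPath_iff]
      refine ⟨⟨SimpleGraph.Walk.IsPath.nil, ?_⟩, ?_⟩
      · simp only [SimpleGraph.Walk.support_nil, List.mem_singleton]
        exact a2.1
      · simp only [SimpleGraph.Walk.support_cons, SimpleGraph.Walk.support_nil,
          List.mem_cons, List.mem_nil_iff, or_false, not_or]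
        exact ⟨a1.1, hne⟩
    · intro z hz
      simp only [SimpleGraph.Walk.support_cons, SimpleGraph.Walk.support_nil,
          List.mem_cons, List.mem_nil_iff, or_false] at hz
      rcases hz with rfl | rfl | rfl
      · exact congrArg Ex.mk l44
      · exact congrArg Ex.mk l43
      · exact congrArg Ex.mk l47
  · rintro n ⟨x, y, p, ⟨hp, hne, hl⟩, rfl⟩
    by_contra hlt
    have hlt' : p.length < 2 := not_le.1 hlt
    have h0 : p.length ≠ 0 := by
      intro h
      exact hne (SimpleGraph.Walk.eq_of_length_eq_zero h)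
    have h1 : p.length = 1 := by omega
    have hadj := SimpleGraph.Walk.adj_of_length_eq_one h1
    have hx := hl x (SimpleGraph.Walk.start_mem_support p)
    have hy := hl y (SimpleGraph.Walk.end_mem_support p)
    rcases noshort x.1.val y.1.val (congrArg Ex.val hadj.2) (congrArg Ex.val hx)
      (congrArg Ex.val hy) with h | h | h
    · apply hne
      apply Subtype.ext
      exact congrArg Ex.mk h
    · exact x.2 (fun k => congrArg Ex.mk (h k.val))
    · exact y.2 (fun k => congrArg Ex.mk (h k.val))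

theorem main : ∃ (S : Type) (_ : Semigroup S) (_ : Finite S), IsInverseSemigroup S ∧
    (∃ x y : S, x * y ≠ y * x) ∧ HasKnitDegree S 2 := by
  have h4' := h4
  push Not at h4'
  obtain ⟨y, hy⟩ := h4'
  exact ⟨Ex, inferInstance, inferInstance, isInverse, ⟨⟨4⟩, y, hy⟩, knit⟩

end Q20.Knit
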